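import Pool.Agent.helper987_SE.A1
import Pool.Agent.helper987_SE.A2
import Pool.Agent.helper987_SE.A3
import Pool.Agent.helper987_SE.B1
import Pool.Agent.helper987_SE.B2
import Pool.Agent.helper987_SE.B3
import Pool.Agent.helper987_SE.B4
import Pool.Agent.helper987_SE.B5
import Pool.Agent.helper987_SE.B6
import Pool.Agent.helper987_SE.B7
import Pool.Agent.helper987_SE.B8
import Pool.Agent.helper987_SE.B9
import Pool.Agent.helper987_SE.B10
import Pool.Agent.helper987_SE.C1
import Pool.Agent.helper987_SE.C2
import Pool.Agent.helper987_SE.C3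
import Pool.Agent.helper987_SE.C4
import Pool.Agent.Helper702_TH.K1
import Pool.Agent.Helper702_TH.PW
import Pool.Agent.Helper702_TH.TA
import Pool.Agent.Helper702_TH.U1
import Pool.Agent.Helper702_TH.U2
import Pool.Agent.Helper702_TH.U3
import Pool.Agent.Helper702_TH.V1
import Pool.Agent.Helper702_TH.V2
import Pool.Agent.Helper702_TH.V3
import Pool.Agent.H742F.Asm2
import Pool.Agent.H742F.S1b
import Pool.Agent.H742F.S2b
import Pool.Agent.H742F.S3
import Pool.Agent.H742F.T
import Pool.Agent.H742F.C0
import Pool.Agent.H742F.C1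
import Pool.Agent.H742F.C2
import Pool.Agent.H742F.C3
import Pool.Agent.H742F.C4
import Pool.Agent.H742F.C5
import Pool.Agent.H742F.C6
import Pool.Agent.H742F.C7
import Pool.Agent.H742F.C8
import Pool.Agent.H742F.K1
import Pool.Agent.H742F.K2
import Pool.Agent.H742F.K3
import Pool.Agent.H742F.K4
import Pool.Agent.H742F.E0
import Pool.Agent.H742F.E1
import Pool.Agent.H742F.R1
import Pool.Agent.H742F.R2
import Pool.Agent.H742F.N1
import Pool.Agent.H742F.N2
import Pool.Agent.H742F.N3
import Pool.Agent.H742F.N4
import Pool.Agent.H742F.N5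
import Pool.Agent.H742F.N6
import Pool.Agent.H742F.U
import Pool.Agent.H742F.F1
import Pool.Agent.H742F.F2

/-!
# `SL_k(ℤ)` is flexibly permutation stable for every `k ≥ 6`

`FlexStable` (in `Pool.Agent.H742F.Defs`) is flexible permutation stability in the sense of the
problem: for every almost-homomorphism `f n : G → Sym(n)` there are `m n ≥ n` and homomorphisms
`ρ n : G →* Sym(m n)` with flexible Hamming distance `fd (f n g) (ρ n g) → 0` for all `g`.
-/

set_option autoImplicit false

namespace Pool.Agent.Results.MP_d45256_al.FlexStableSixUp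

open Pool.Agent Pool.Agent.H742F
open Matrix (SpecialLinearGroup)

/-- For every `k ≥ 6` the group `SL_k(ℤ)` is flexibly permutation stable. -/
theorem result : ∀ k : ℕ, 6 ≤ k → FlexStable (SpecialLinearGroup (Fin k) ℤ) := by
  have a2 := helper987_SE.A2.main helper987_SE.A1.main
  have b1 := helper987_SE.B1.main
  have b4 := helper987_SE.B4.main
  have bp := helper987_SE.B10.main (helper987_SE.B2.main b1)
    (helper987_SE.B5.main (helper987_SE.B3.main b1) b4) helper987_SE.B6.main
    (helper987_SE.B7.main b4) (helper987_SE.B8.main b4) helper987_SE.B9.main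
  have c4 := helper987_SE.C4.main helper987_SE.C1.main helper987_SE.C2.main helper987_SE.C3.main
  have v := Helper702_TH.V3.main (Helper702_TH.V2.main Helper702_TH.V1.main)
  have u1 := Helper702_TH.U1.main
  have u2 := Helper702_TH.U2.main u1
  have pw := Helper702_TH.PW.main bp (Helper702_TH.TA.main c4 u1 u2 (Helper702_TH.U3.main v u1 u2))
  exact H742F.Asm2.main a2 (helper987_SE.A3.main a2) pw Helper702_TH.K1.main
    (fun a b c => H742F.S1b.main a b c) H742F.S2b.main4 H742F.S3.main H742F.S2b.main
    H742F.T.main H742F.C0.main H742F.C1.main H742F.C2.main H742F.C3.main H742F.C4.main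
    H742F.C5.main H742F.C6.main H742F.C7.main H742F.C8.main H742F.K1.main H742F.K2.main
    H742F.K3.main H742F.E0.main H742F.E1.main H742F.K4.main H742F.R1.main H742F.R2.main
    H742F.N1.main H742F.N2.main H742F.N3.main H742F.N4.main H742F.N5.main H742F.N6.main
    H742F.U.main H742F.F1.main H742F.F2.main

end Pool.Agent.Results.MP_d45256_al.FlexStableSixUp
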